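import Pool.Agent.H8.DI.CB

/-!
# The labels of linked cells
-/

set_option autoImplicit false

namespace Pool.Agent.H1.DI

open Pool.Agent.H16.TO Pool.Agent.H8.PL Pool.Agent.H8.DI

section
variable {V Q : Type} [Finite V] {U : Bool → Bool → Bool → Bool → Q → Prop}
  {Hh Vv : Q → Q → Prop} {st : V → El Q} {E F M N : V → V → Prop}

theorem link_count (a : CellAx U st E M) (b : LinkAx Hh Vv st E F N) (j : Fin 4)
    (hj : j = 1 ∨ j = 2) (x y : V) (hx : (st x).k = 0) (hxy : F x y) (hy : (st y).k = j)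
    (hl : ∀ z, E x z → (st z).k = 0 → lnk 0 j (st z)) (c : Bool) :
    {z | E x z ∧ (st z).k = 0 ∧ (st z).c = c}.ncard =
      {w | E y w ∧ (st w).k = j ∧ (st w).c = c}.ncard := by
  refine ncard_match _ _ N ?_ ?_
  · rintro z ⟨h1, h2, h3⟩
    have hxz : F x z := (b.blk x z (hx.trans h2.symm)).1 h1
    obtain ⟨w, ⟨g1, g2, g3, g4⟩, gu⟩ := b.lin j hj z (hl z h1 h2)
    refine ⟨w, ⟨⟨?_, g3, g4.trans h3⟩, g2⟩, ?_⟩
    · exact (b.blk y w (hy.trans g3.symm)).2 (b.feq.trans (b.feq.symm hxy) (b.feq.trans hxz g1))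
    · rintro w' ⟨⟨k1, k2, k3⟩, k4⟩
      refine gu w' ⟨?_, k4, k2, k3.trans h3.symm⟩
      exact b.feq.trans (b.feq.symm hxz) (b.feq.trans hxy ((b.blk y w' (hy.trans k2.symm)).1 k1))
  · rintro w ⟨h1, h2, h3⟩
    have hyw : F y w := (b.blk y w (hy.trans h2.symm)).1 h1
    obtain ⟨z, ⟨g1, g2, g3, g4⟩, gu⟩ := b.lin' j hj w h2
    have hz0 : (st z).k = 0 := g3.1
    refine ⟨z, ⟨⟨?_, hz0, g4.trans h3⟩, g2⟩, ?_⟩
    · exact (b.blk x z (hx.trans hz0.symm)).2 (b.feq.trans hxy (b.feq.trans hyw (b.feq.symm g1)))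
    · rintro z' ⟨⟨k1, k2, k3⟩, k4⟩
      refine gu z' ⟨?_, k4, hl z' k1 k2, k3.trans h3.symm⟩
      exact b.feq.trans (b.feq.symm ((b.blk x z' (hx.trans k2.symm)).1 k1))
        (b.feq.trans hxy hyw)

end

theorem pf_lb (hCB : K_CB) : K_LB := by
  intro V Q _ U Hh Vv st E F M N a b x y hx hxy
  have hcb := hCB V Q U st E M a y
  obtain ⟨-, -, -, -, hc1, hc2, -⟩ := hcb
  constructor
  · intro hy
    obtain ⟨x', ⟨h1, h2, h3, h4⟩, -⟩ := b.lin' 1 (Or.inl rfl) y hy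
    have hx' : (st x').k = 0 := h3.1
    have hlx' : (st x').lx = false := h3.2.1 rfl
    have hE : E x x' := (b.blk x x' (hx.trans hx'.symm)).2 (b.feq.trans hxy (b.feq.symm h1))
    obtain ⟨s1, s2, s3, s4, s5⟩ := a.same x x' hE
    have hlx : (st x).lx = false := s2.trans hlx'
    obtain ⟨o1, o2, o3⟩ := b.ho x' y h1 h2 hx' hy
    obtain ⟨x'', ⟨k1, k2, k3, k4⟩, -⟩ := a.mat' 1 (by decide) y hy
    have hfy : (st y).fx = false := (a.same x'' y k1).1.symm.trans (k3.2.1 rfl).1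
    obtain ⟨d1, d2⟩ := hc1 hfy
    have hl : ∀ z, E x z → (st z).k = 0 → lnk 0 1 (st z) := by
      intro z hz hz0
      exact ⟨hz0, fun _ => (a.same x z hz).2.1.symm.trans hlx, fun h => absurd h (by decide)⟩
    have e1 := link_count a b 1 (Or.inl rfl) x y hx hxy hy hl false
    have e2 := link_count a b 1 (Or.inl rfl) x y hx hxy hy hl true
    refine ⟨?_, ?_, hlx, o3.trans s4.symm, ?_⟩
    · unfold al at d1 ⊢
      rw [e1]
      exact d1.symm
    · unfold be at d2 ⊢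
      rw [e2]
      exact d2.symm
    · rw [s5]
      exact o1
  · intro hy
    obtain ⟨x', ⟨h1, h2, h3, h4⟩, -⟩ := b.lin' 2 (Or.inr rfl) y hy
    have hx' : (st x').k = 0 := h3.1
    have hly' : (st x').ly = false := h3.2.2 rfl
    have hE : E x x' := (b.blk x x' (hx.trans hx'.symm)).2 (b.feq.trans hxy (b.feq.symm h1))
    obtain ⟨s1, s2, s3, s4, s5⟩ := a.same x x' hE
    have hly : (st x).ly = false := s4.trans hly'
    obtain ⟨o1, o2, o3⟩ := b.ve x' y h1 h2 hx' hy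
    obtain ⟨x'', ⟨k1, k2, k3, k4⟩, -⟩ := a.mat' 2 (by decide) y hy
    have hfy : (st y).fy = false := (a.same x'' y k1).2.2.1.symm.trans (k3.2.2 rfl).1
    obtain ⟨d1, d2⟩ := hc2 hfy
    have hl : ∀ z, E x z → (st z).k = 0 → lnk 0 2 (st z) := by
      intro z hz hz0
      exact ⟨hz0, fun h => absurd h (by decide), fun _ => (a.same x z hz).2.2.2.1.symm.trans hly⟩
    have e1 := link_count a b 2 (Or.inr rfl) x y hx hxy hy hl false
    have e2 := link_count a b 2 (Or.inr rfl) x y hx hxy hy hl true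
    refine ⟨?_, ?_, hly, o3.trans s2.symm, ?_⟩
    · unfold be at d2 ⊢
      rw [e2]
      exact d2.symm
    · unfold al at d1 ⊢
      rw [e1]
      exact d1.symm
    · rw [s5]
      exact o1

end Pool.Agent.H1.DI
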